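import Pool.Agent.Helper80.DC.Defs

/-!
# The inequality on the resolution graph

For the divisor `div g = C + ∑ m_i E_i` let `L = ∑ ⌊m_i / 2⌋ E_i`. Then
`c_R + #(C ∩ E outside R) ≤ 1 - 2 L²`.
-/

namespace Pool.Agent.Helper80.DC

open Finset

namespace DivisorData

variable (D : DivisorData)

/-- `- Q² + ∑_{i ∈ Q} (m_i - 2) c_i` for a set of curves -/
def qq (S : Finset D.I) : ℤ :=
  - (∑ i ∈ S, ∑ j ∈ S, D.e i j) + ∑ i ∈ S, ((D.m i : ℤ) - 2) * D.c i

theorem energy (v : D.I → ℚ) :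
    ∑ i, ∑ j, (D.m i : ℚ) * D.m j * D.e i j * (v i - v j) ^ 2 =
      - 2 * (∑ i, (D.m i : ℚ) * v i ^ 2 * D.c i) -
        2 * ∑ i, ∑ j, (D.m i * v i) * (D.m j * v j) * D.e i j := by
  have hz : ∀ i, ∑ j, (D.m j : ℚ) * D.e i j = - D.c i := by
    intro i
    have h := congrArg (Int.cast (R := ℚ)) (D.div_zero i)
    push_cast at h
    linarith
  have h1 : ∑ i, ∑ j, (D.m i : ℚ) * D.m j * D.e i j * v i ^ 2 =
      - ∑ i, (D.m i : ℚ) * v i ^ 2 * D.c i := by
    rw [← Finset.sum_neg_distrib]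
    refine Finset.sum_congr rfl fun i _ => ?_
    have : ∑ j, (D.m i : ℚ) * D.m j * D.e i j * v i ^ 2 =
        ((D.m i : ℚ) * v i ^ 2) * ∑ j, (D.m j : ℚ) * D.e i j := by
      rw [Finset.mul_sum]
      exact Finset.sum_congr rfl fun j _ => by ring
    rw [this, hz i]
    ring
  have h2 : ∑ i, ∑ j, (D.m i : ℚ) * D.m j * D.e i j * v j ^ 2 =
      - ∑ i, (D.m i : ℚ) * v i ^ 2 * D.c i := by
    rw [← h1, Finset.sum_comm]
    refine Finset.sum_congr rfl fun i _ => Finset.sum_congr rfl fun j _ => ?_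
    rw [D.symm j i]
    ring
  have h3 : ∑ i, ∑ j, (D.m i : ℚ) * D.m j * D.e i j * (v i - v j) ^ 2 =
      ∑ i, ∑ j, (D.m i : ℚ) * D.m j * D.e i j * v i ^ 2 +
      ∑ i, ∑ j, (D.m i : ℚ) * D.m j * D.e i j * v j ^ 2 -
        2 * ∑ i, ∑ j, (D.m i * v i) * (D.m j * v j) * D.e i j := by
    rw [Finset.mul_sum, ← Finset.sum_add_distrib, ← Finset.sum_sub_distrib]
    refine Finset.sum_congr rfl fun i _ => ?_
    rw [Finset.mul_sum, ← Finset.sum_add_distrib, ← Finset.sum_sub_distrib]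
    exact Finset.sum_congr rfl fun j _ => by ring
  rw [h3, h1, h2]
  ring

/-- the function `1 / m_i` on `S` and `0` outside -/
def vS (S : Finset D.I) (i : D.I) : ℚ := if i ∈ S then 1 / (D.m i : ℚ) else 0

theorem m_ne (i : D.I) : (D.m i : ℚ) ≠ 0 := by
  have := D.m_pos i
  positivity

theorem qq_eq (S : Finset D.I) :
    ((D.qq S : ℤ) : ℚ) = (1 / 2) * ∑ i, ∑ j, (D.m i : ℚ) * D.m j * D.e i j *
      (D.vS S i - D.vS S j) ^ 2 + ∑ i ∈ S, (D.c i : ℚ) * ((D.m i : ℚ) - 1) ^ 2 / D.m i := by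
  rw [D.energy]
  have h1 : ∑ i, (D.m i : ℚ) * D.vS S i ^ 2 * D.c i = ∑ i ∈ S, (D.c i : ℚ) / D.m i := by
    rw [← Finset.sum_filter_add_sum_filter_not univ (· ∈ S)]
    rw [Finset.sum_eq_zero (s := univ.filter (¬ · ∈ S))]
    · rw [add_zero, Finset.filter_mem_eq_inter, Finset.univ_inter]
      refine Finset.sum_congr rfl fun i hi => ?_
      have := D.m_ne i
      rw [vS, if_pos hi]
      field_simp
    · intro i hi
      rw [Finset.mem_filter] at hi
      rw [vS, if_neg hi.2]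
      ring
  have h2 : ∑ i, ∑ j, (D.m i * D.vS S i) * (D.m j * D.vS S j) * D.e i j =
      ((∑ i ∈ S, ∑ j ∈ S, D.e i j : ℤ) : ℚ) := by
    have hi : ∀ i, (D.m i : ℚ) * D.vS S i = if i ∈ S then 1 else 0 := by
      intro i
      have := D.m_ne i
      unfold vS
      split_ifs
      · field_simp
      · ring
    simp only [hi]
    push_cast
    simp only [ite_mul, one_mul, zero_mul, mul_ite, mul_one, mul_zero, Finset.sum_ite_mem,
      Finset.univ_inter, Finset.sum_const_zero]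
    rw [← Finset.sum_filter_add_sum_filter_not univ (· ∈ S)]
    rw [Finset.sum_eq_zero (s := univ.filter (¬ · ∈ S))]
    · rw [add_zero, Finset.filter_mem_eq_inter, Finset.univ_inter]
      exact Finset.sum_congr rfl fun i hi => by simp [hi]
    · intro i hi
      rw [Finset.mem_filter] at hi
      simp [hi.2]
  rw [h1, h2]
  unfold qq
  push_cast
  have h3 : ∑ i ∈ S, ((D.m i : ℚ) - 2) * D.c i =
      - ∑ i ∈ S, (D.c i : ℚ) / D.m i + ∑ i ∈ S, (D.c i : ℚ) * ((D.m i : ℚ) - 1) ^ 2 / D.m i := by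
    rw [← Finset.sum_neg_distrib, ← Finset.sum_add_distrib]
    refine Finset.sum_congr rfl fun i _ => ?_
    have := D.m_ne i
    field_simp
    ring
  rw [h3]
  ring

theorem term_nonneg (v : D.I → ℚ) (i j : D.I) :
    0 ≤ (D.m i : ℚ) * D.m j * D.e i j * (v i - v j) ^ 2 := by
  by_cases h : i = j
  · rw [h]
    simp
  · have : (0 : ℚ) ≤ D.e i j := by exact_mod_cast D.nonneg i j h
    positivity

theorem rest_nonneg (S : Finset D.I) :
    0 ≤ ∑ i ∈ S, (D.c i : ℚ) * ((D.m i : ℚ) - 1) ^ 2 / D.m i :=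
  Finset.sum_nonneg fun i _ => by positivity

theorem qq_nonneg (S : Finset D.I) : 0 ≤ D.qq S := by
  have h : (0 : ℚ) ≤ ((D.qq S : ℤ) : ℚ) := by
    rw [D.qq_eq]
    have h1 := Finset.sum_nonneg fun i (_ : i ∈ univ) => Finset.sum_nonneg fun j (_ : j ∈ univ) =>
      D.term_nonneg (D.vS S) i j
    have h2 := D.rest_nonneg S
    linarith
  exact_mod_cast h

theorem qq_pos (S : Finset D.I) {i j : D.I} (hi : i ∈ S) (hj : j ∉ S) (he : 0 < D.e i j) :
    0 < D.qq S := by
  have h : (0 : ℚ) < ((D.qq S : ℤ) : ℚ) := by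
    rw [D.qq_eq]
    have h1 : 0 < ∑ i, ∑ j, (D.m i : ℚ) * D.m j * D.e i j * (D.vS S i - D.vS S j) ^ 2 := by
      refine Finset.sum_pos' (fun i _ => Finset.sum_nonneg fun j _ => D.term_nonneg _ i j)
        ⟨i, Finset.mem_univ _, ?_⟩
      refine Finset.sum_pos' (fun j _ => D.term_nonneg _ i j) ⟨j, Finset.mem_univ _, ?_⟩
      rw [vS, vS, if_pos hi, if_neg hj]
      have h1 : (0 : ℚ) < D.e i j := by exact_mod_cast he
      have h2 : (0 : ℚ) < D.m i := by exact_mod_cast D.m_pos i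
      have h3 : (0 : ℚ) < D.m j := by exact_mod_cast D.m_pos j
      rw [sub_zero]
      positivity
    have h2 := D.rest_nonneg S
    linarith
  exact_mod_cast h

/-- `qq S` is even if `S` is a union of components of `R` -/
theorem qq_even (S : Finset D.I) (hodd : ∀ i ∈ S, Odd (D.m i))
    (hsep : ∀ i ∈ S, ∀ j, j ∉ S → Odd (D.m j) → D.e i j = 0) : Even (D.qq S) := by
  have key : ∀ i ∈ S, Even (∑ j ∈ S, D.e i j + D.c i) := by
    intro i hi
    have h := D.div_zero i
    rw [← Finset.sum_filter_add_sum_filter_not univ (· ∈ S), Finset.filter_mem_eq_inter,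
      Finset.univ_inter] at h
    have h1 : Even (∑ j ∈ univ.filter (¬ · ∈ S), (D.m j : ℤ) * D.e i j) := by
      refine Finset.even_sum _ fun j hj => ?_
      rw [Finset.mem_filter] at hj
      rcases Nat.even_or_odd (D.m j) with h | h
      · exact ((Int.even_coe_nat _).2 h).mul_right _
      · rw [hsep i hi j hj.2 h, mul_zero]
        exact Even.zero
    have h2 : Even (∑ j ∈ S, (D.m j : ℤ) * D.e i j - ∑ j ∈ S, D.e i j) := by
      rw [← Finset.sum_sub_distrib]
      refine Finset.even_sum _ fun j hj => ?_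
      have : (D.m j : ℤ) * D.e i j - D.e i j = ((D.m j : ℤ) - 1) * D.e i j := by ring
      rw [this]
      refine Even.mul_right ?_ _
      have := (Int.odd_coe_nat _).2 (hodd j hj)
      exact this.sub_odd odd_one
    have h3 : ∑ j ∈ S, D.e i j + D.c i =
        - (∑ j ∈ univ.filter (¬ · ∈ S), (D.m j : ℤ) * D.e i j) -
          (∑ j ∈ S, (D.m j : ℤ) * D.e i j - ∑ j ∈ S, D.e i j) := by linarith
    rw [h3]
    exact h1.neg.sub h2
  have h : D.qq S = ∑ i ∈ S, (- (∑ j ∈ S, D.e i j + D.c i) + ((D.m i : ℤ) - 1) * D.c i) := by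
    unfold qq
    rw [← Finset.sum_neg_distrib, ← Finset.sum_add_distrib]
    exact Finset.sum_congr rfl fun i _ => by ring
  rw [h]
  refine Finset.even_sum _ fun i hi => (key i hi).neg.add ?_
  refine Even.mul_right ?_ _
  exact ((Int.odd_coe_nat _).2 (hodd i hi)).sub_odd odd_one

end DivisorData

end Pool.Agent.Helper80.DC
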