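import Mathlib

/-!
# Double covers of normal surface germs: definitions

The objects are germs `(Y, 0)` of normal complex surfaces, smooth or singular, with the classical
invariants: the geometric genus `pg`, the number `s` of irreducible components of the exceptional
set `E` of the minimal resolution, the first Betti number `b1` of `E`, the self-intersection `K2`
of the canonical cycle of the minimal resolution (a rational number), and for isolated complete
intersections (of any codimension) the Milnor number `mu`. For a smooth germ `E` is empty and all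
the invariants are zero.

A branch datum of `Y` is a function germ `g` in the maximal ideal of `Y` whose zero divisor is
reduced, and `cover Y g` is the germ `z ^ 2 = g` in `Y × ℂ`, which is normal.
-/

namespace Pool.Agent.Helper80.DC

open Finset

/-- germs of normal complex surfaces, their invariants and their double covers (only data) -/
structure SurfaceGerms where
  /-- germs `(Y, 0)` of normal complex surfaces, smooth or singular -/
  Germ : Type
  /-- function germs on `Y` that vanish at `0` and have a reduced zero divisor -/
  Branch : Germ → Type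
  /-- `g` is in the square of the maximal ideal of `Y` -/
  InSq : {Y : Germ} → Branch Y → Prop
  /-- the double cover `z ^ 2 = g` of `Y` -/
  cover : (Y : Germ) → Branch Y → Germ
  /-- `Y` is smooth -/
  Smooth : Germ → Prop
  /-- `Y` is smooth or an isolated complete intersection singularity, of any codimension -/
  CI : Germ → Prop
  /-- the embedding codimension: the embedding dimension minus two -/
  cod : Germ → ℕ
  /-- the geometric genus -/
  pg : Germ → ℕ
  /-- the Milnor number of an isolated complete intersection singularity -/
  mu : Germ → ℕ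
  /-- the number of irreducible components of the exceptional set of the minimal resolution -/
  s : Germ → ℕ
  /-- the first Betti number of the exceptional set -/
  b1 : Germ → ℕ
  /-- the self-intersection of the canonical cycle on the minimal resolution -/
  K2 : Germ → ℚ

namespace SurfaceGerms

variable (T : SurfaceGerms)

/-- the invariant `A = 8 p_g + K² - b₁` -/
def A (Y : T.Germ) : ℚ := 8 * T.pg Y + T.K2 Y - T.b1 Y

/-- `X` is an iterated double cover of `Y`: there are `Y = Y₀, Y₁, …, Y_r = X`, `r ≥ 0`, such that
`Y_{i+1}` is a double cover `z ^ 2 = g` of `Y_i` -/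
def Iterated (Y X : T.Germ) : Prop :=
  Relation.ReflTransGen (fun Y X => ∃ g : T.Branch Y, X = T.cover Y g) Y X

end SurfaceGerms

/-- The divisor of `g` on the minimal resolution of a normal surface singularity `Y`.
The exceptional set is `E = ⋃ E_i` and `div g = C + ∑ m_i E_i`, where `C` is the strict transform
of the zero divisor of `g`. -/
structure DivisorData where
  /-- the irreducible components of the exceptional set `E` -/
  I : Type
  [fin : Fintype I]
  [dec : DecidableEq I]
  /-- the intersection numbers `E_i · E_j` -/
  e : I → I → ℤ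
  /-- the intersection numbers `K · E_i` with the canonical divisor -/
  KE : I → ℤ
  /-- the multiplicity `m_i` of `g` along `E_i` -/
  m : I → ℕ
  /-- the intersection numbers `C · E_i` -/
  c : I → ℕ
  /-- the intersection numbers are symmetric -/
  symm : ∀ i j, e i j = e j i
  /-- different curves have a nonnegative intersection number -/
  nonneg : ∀ i j, i ≠ j → 0 ≤ e i j
  /-- `E` is not empty -/
  nonempty : Nonempty I
  /-- `E` is connected -/
  conn : ∀ S : Finset I, S.Nonempty → S ≠ univ → ∃ i ∈ S, ∃ j ∉ S, 0 < e i j
  /-- `g` vanishes at the point, so it vanishes along every `E_i` -/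
  m_pos : ∀ i, 1 ≤ m i
  /-- the divisor of a function is orthogonal to every `E_i` -/
  div_zero : ∀ i, ∑ j, (m j : ℤ) * e i j + c i = 0
  /-- the zero divisor of `g` on `Y` passes through the point, so `C` meets `E` -/
  c_pos : ∃ i, 1 ≤ c i

attribute [instance] DivisorData.fin DivisorData.dec

namespace DivisorData

variable (D : DivisorData)

/-- the graph of the branch curve `R`, the union of the `E_i` of odd multiplicity: two of these
curves are adjacent if they meet -/
def oddGraph : SimpleGraph {i : D.I // Odd (D.m i)} where
  Adj i j := i ≠ j ∧ 0 < D.e i j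
  symm := ⟨fun i j h => ⟨h.1.symm, by rw [D.symm]; exact h.2⟩⟩
  loopless := ⟨fun i h => h.1 rfl⟩

/-- the number of connected components of the branch curve `R` -/
noncomputable def cR : ℕ := Nat.card D.oddGraph.ConnectedComponent

/-- the curves `E_i` of a connected component `Q` of `R` -/
noncomputable def SQ (Q : D.oddGraph.ConnectedComponent) : Finset D.I := by
  classical
  exact univ.filter fun i => ∃ h : Odd (D.m i), D.oddGraph.connectedComponentMk ⟨i, h⟩ = Q

/-- the number of the `E_i` of odd multiplicity: the irreducible components of `R` -/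
def odd : ℕ := (univ.filter fun i => Odd (D.m i)).card

/-- the number of the `E_i` of even multiplicity -/
def even : ℕ := (univ.filter fun i => Even (D.m i)).card

/-- `K · L` for the cycle `L = ∑ ⌊m_i / 2⌋ E_i` -/
def KL : ℤ := ∑ i, ((D.m i / 2 : ℕ) : ℤ) * D.KE i

/-- `L · L` for the cycle `L = ∑ ⌊m_i / 2⌋ E_i` -/
def LL : ℤ := ∑ i, ∑ j, ((D.m i / 2 : ℕ) : ℤ) * ((D.m j / 2 : ℕ) : ℤ) * D.e i j

end DivisorData

/-- The standard computation of the invariants of a double cover `X : z ^ 2 = g` of a normal
surface singularity `Y`. Let `Ỹ → Y` be the minimal resolution, `div g = C + ∑ m_i E_i`,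
`L = ∑ ⌊m_i / 2⌋ E_i`, and let `R` be the union of the `E_i` of odd multiplicity. The
normalization `X₀` of the pulled back double cover is the double cover of `Ỹ` with branch curve
`B = C + R = div g - 2 L`; its singular points `x_p` lie over the singular points of `B`. `X₁` is
the minimal resolution of these points, a resolution of `X`. -/
structure CoverData (T : SurfaceGerms) (Y : T.Germ) (g : T.Branch Y) where
  /-- the divisor of `g` -/
  D : DivisorData
  /-- `s` is the number of the curves `E_i` -/
  card_I : Fintype.card D.I = T.s Y
  /-- the number of points over which `X₀` is singular -/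
  N : ℕ
  /-- the germs of `X₀` at these points -/
  x : Fin N → T.Germ
  /-- they are double covers of smooth germs -/
  x_cover : ∀ p, ∃ (U : T.Germ) (b : T.Branch U), T.Smooth U ∧ x p = T.cover U b
  /-- `h¹(O)` of `X₀` -/
  h1 : ℚ
  /-- `h¹(O_{X₀}) = h¹(O) + h¹(O(L))` and `h¹(O(L)) = p_g + (K L - L²) / 2` (Riemann-Roch on `L`,
  since a function with poles on `E` has none) -/
  h1_eq : h1 = T.pg Y + (T.pg Y + ((D.KL : ℚ) - D.LL) / 2)
  /-- the Leray spectral sequence of `X₁ → X₀` -/
  pg_eq : (T.pg (T.cover Y g) : ℚ) = h1 + ∑ p, (T.pg (x p) : ℚ)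
  /-- the self-intersection of the canonical class of `X₀` -/
  K0 : ℚ
  /-- the canonical class of `X₀` is the pull-back of `K + B / 2`, numerically of `K - L` -/
  K0_eq : K0 = 2 * (T.K2 Y - 2 * D.KL + D.LL)
  /-- the canonical class of `X₁`, whose square is at most the one on the minimal resolution -/
  K2_ge : K0 + ∑ p, T.K2 (x p) ≤ T.K2 (T.cover Y g)
  /-- the Euler number of `E` -/
  eE : ℤ
  /-- `E` is a connected curve with `s` irreducible components -/
  eE_eq : eE = 1 - T.b1 Y + T.s Y
  /-- the first Betti number of `R` -/
  b1R : ℕ
  /-- the number of the points of `C ∩ E_j` that are not on `R` -/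
  F : D.I → ℕ
  /-- at each of these points the intersection number is at least one -/
  F_le : ∀ j, F j ≤ D.c j
  /-- the number of the points of `C ∩ E` that are not on `R` -/
  Ftot : ℕ
  /-- such a point is on a curve `E_j` of even multiplicity -/
  Ftot_le : Ftot ≤ ∑ j with Even (D.m j), F j
  /-- the Euler number of `E ∩ B` -/
  eB : ℤ
  /-- `E ∩ B` is the curve `R` and these points -/
  eB_eq : eB = ((D.cR : ℤ) - b1R + D.odd) + Ftot
  /-- the set of the `E_j` whose preimage in `X₀` has two components -/
  Split : Finset D.I
  /-- such an `E_j` is not in the branch curve -/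
  split_even : ∀ j ∈ Split, Even (D.m j)
  /-- at every point of such an `E_j` the local intersection number with `B` is even, since the
  double cover of `E_j` is trivial; so it is at least two at the points of `C` outside `R` -/
  split_F : ∀ j ∈ Split, 2 * F j ≤ D.c j
  /-- and if such an `E_j` does not meet `C` then `Q · E_j` is even for the components `Q` of `R` -/
  split_Q : ∀ j ∈ Split, D.c j = 0 → ∀ Q, Even (∑ i ∈ D.SQ Q, D.e i j)
  /-- the Euler number of the preimage `E₀` of `E` in `X₀` -/
  e0 : ℤ
  /-- `E₀ → E` is a double cover with branch locus `E ∩ B` -/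
  e0_eq : e0 = 2 * eE - eB
  /-- the Euler number of the exceptional set `E₁` of `X₁ → X` -/
  e1 : ℤ
  /-- in `E₁` the points `x_p` are replaced by the exceptional sets of their resolutions -/
  e1_eq : e1 = e0 + ∑ p, ((1 - (T.b1 (x p) : ℤ) + T.s (x p)) - 1)
  /-- `E₁` is a connected curve with `s + #Split + ∑ s(x_p)` irreducible components -/
  b1_eq : e1 = 1 - T.b1 (T.cover Y g) + (T.s Y + Split.card + ∑ p, (T.s (x p) : ℤ))
  /-- the functions in the maximal ideal vanish along every `E_i` -/
  two_le : T.InSq g → ∀ i, 2 ≤ D.m i

/-- Classical facts on normal surface singularities. -/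
structure Facts (T : SurfaceGerms) : Prop where
  /-- the invariants of smooth germs are zero -/
  smooth : ∀ U, T.Smooth U → T.CI U ∧ T.pg U = 0 ∧ T.mu U = 0 ∧ T.s U = 0 ∧ T.b1 U = 0 ∧ T.K2 U = 0
  /-- a germ of embedding dimension two is smooth -/
  cod_zero : ∀ Y, T.cod Y = 0 ↔ T.Smooth Y
  /-- the embedding dimension of `z ^ 2 = g` is the one of `Y`, plus one if `g` is in the square of
  the maximal ideal -/
  cod_cover : ∀ Y (g : T.Branch Y), (T.InSq g → T.cod (T.cover Y g) = T.cod Y + 1) ∧
    (¬ T.InSq g → T.cod (T.cover Y g) = T.cod Y)
  /-- the exceptional set of a singular point is not empty -/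
  s_pos : ∀ Y, ¬ T.Smooth Y → 1 ≤ T.s Y
  /-- `b₁ ≤ 2 p_g`: on a good resolution `p_g ≥ h¹(O_E)`, the sum of the genera of the `E_i` and of
  the first Betti number of the dual graph -/
  b1_le : ∀ Y, T.b1 Y ≤ 2 * T.pg Y
  /-- a double cover of an isolated complete intersection is one (or smooth) -/
  CI_cover : ∀ Y (g : T.Branch Y), T.CI Y → T.CI (T.cover Y g)
  /-- the formula of Laufer and Steenbrink, `μ + 1 = 12 p_g + K² + χ_top(E)` -/
  laufer_steenbrink : ∀ Y, T.CI Y → ¬ T.Smooth Y →
    (T.mu Y : ℚ) = 12 * T.pg Y + T.K2 Y + T.s Y - T.b1 Y
  /-- Horikawa's canonical resolution of a double point `z ^ 2 = g(x, y)`: the `k` are the numbers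
  `⌊mult / 2⌋` at the (infinitely near) points of multiplicity at least two that are blown up -/
  horikawa : ∀ (U : T.Germ) (b : T.Branch U), T.Smooth U → ∃ l : List ℕ, (∀ k ∈ l, 1 ≤ k) ∧
    2 * (T.pg (T.cover U b) : ℤ) = (l.map fun k : ℕ => (k : ℤ) * ((k : ℤ) - 1)).sum ∧
    (((- 2 * (l.map fun k : ℕ => ((k : ℤ) - 1) ^ 2).sum : ℤ)) : ℚ) ≤ T.K2 (T.cover U b)
  /-- the double covers of a singular germ -/
  coverData : ∀ (Y : T.Germ) (g : T.Branch Y), ¬ T.Smooth Y → Nonempty (CoverData T Y g)

end Pool.Agent.Helper80.DC
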