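import Pool.Agent.Helper80.DC.Core

/-!
# The components of the branch curve
-/

namespace Pool.Agent.Helper80.DC

open Finset

namespace DivisorData

variable (D : DivisorData)

noncomputable instance : Fintype D.oddGraph.ConnectedComponent := by
  classical exact Fintype.ofFinite _

noncomputable instance : DecidableEq D.oddGraph.ConnectedComponent := Classical.decEq _

theorem mem_SQ {Q : D.oddGraph.ConnectedComponent} {i : D.I} :
    i ∈ D.SQ Q ↔ ∃ h : Odd (D.m i), D.oddGraph.connectedComponentMk ⟨i, h⟩ = Q := by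
  simp [SQ]

theorem cR_eq : D.cR = Fintype.card D.oddGraph.ConnectedComponent := by
  rw [cR, Nat.card_eq_fintype_card]

theorem same_component {i j : D.I} (hi : Odd (D.m i)) (hj : Odd (D.m j)) (h : 0 < D.e i j) :
    D.oddGraph.connectedComponentMk ⟨i, hi⟩ = D.oddGraph.connectedComponentMk ⟨j, hj⟩ := by
  by_cases hij : i = j
  · subst hij
    rfl
  · refine SimpleGraph.ConnectedComponent.sound (SimpleGraph.Adj.reachable ?_)
    exact ⟨fun h' => hij (congrArg Subtype.val h'), h⟩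

theorem SQ_sep (Q : D.oddGraph.ConnectedComponent) : ∀ i ∈ D.SQ Q, ∀ j, j ∉ D.SQ Q →
    Odd (D.m j) → D.e i j = 0 := by
  intro i hi j hj hjo
  obtain ⟨hio, hQ⟩ := D.mem_SQ.1 hi
  by_contra hne
  have hij : i ≠ j := by
    rintro rfl
    exact hj hi
  have hpos : 0 < D.e i j := lt_of_le_of_ne (D.nonneg i j hij) (Ne.symm hne)
  exact hj (D.mem_SQ.2 ⟨hjo, by rw [← hQ]; exact (D.same_component hio hjo hpos).symm⟩)

theorem SQ_nonempty (Q : D.oddGraph.ConnectedComponent) : (D.SQ Q).Nonempty := by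
  induction Q using SimpleGraph.ConnectedComponent.ind with
  | h v => exact ⟨v.1, D.mem_SQ.2 ⟨v.2, rfl⟩⟩

/-- a sum over the curves of odd multiplicity, component by component -/
theorem sum_SQ {M : Type*} [AddCommMonoid M] (f : D.I → M) :
    ∑ Q, ∑ i ∈ D.SQ Q, f i = ∑ i with Odd (D.m i), f i := by
  have h1 : ∀ Q, ∑ i ∈ D.SQ Q, f i = ∑ i, if i ∈ D.SQ Q then f i else 0 := by
    intro Q
    rw [Finset.sum_ite_mem, Finset.univ_inter]
  simp only [h1]
  rw [Finset.sum_comm, Finset.sum_filter]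
  refine Finset.sum_congr rfl fun i _ => ?_
  by_cases h : Odd (D.m i)
  · rw [if_pos h]
    rw [Finset.sum_eq_single (D.oddGraph.connectedComponentMk ⟨i, h⟩)]
    · rw [if_pos (D.mem_SQ.2 ⟨h, rfl⟩)]
    · intro Q _ hQ
      rw [if_neg]
      intro hi
      obtain ⟨_, h'⟩ := D.mem_SQ.1 hi
      exact hQ h'.symm
    · intro h'
      exact absurd (Finset.mem_univ _) h'
  · rw [if_neg h]
    refine Finset.sum_eq_zero fun Q _ => ?_
    rw [if_neg]
    intro hi
    exact h (D.mem_SQ.1 hi).1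

theorem RR_eq : ∑ Q, ∑ i ∈ D.SQ Q, ∑ j ∈ D.SQ Q, D.e i j =
    ∑ i with Odd (D.m i), ∑ j with Odd (D.m j), D.e i j := by
  rw [← D.sum_SQ (fun i => ∑ j with Odd (D.m j), D.e i j)]
  refine Finset.sum_congr rfl fun Q _ => Finset.sum_congr rfl fun i hi => ?_
  refine Finset.sum_subset ?_ ?_
  · intro j hj
    rw [Finset.mem_filter]
    exact ⟨Finset.mem_univ _, (D.mem_SQ.1 hj).1⟩
  · intro j hj hj'
    rw [Finset.mem_filter] at hj
    exact D.SQ_sep Q i hi j hj' hj.2

theorem div_two (i : D.I) : (D.m i : ℤ) = 2 * ((D.m i / 2 : ℕ) : ℤ) +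
    (if Odd (D.m i) then 1 else 0) := by
  by_cases h : Odd (D.m i)
  · rw [if_pos h]
    obtain ⟨k, hk⟩ := h
    omega
  · rw [if_neg h]
    rw [Nat.not_odd_iff_even] at h
    obtain ⟨k, hk⟩ := h
    omega

/-- the identity for `- 4 L²` -/
theorem LL_eq : - 4 * D.LL = ∑ Q, D.qq (D.SQ Q) +
    ∑ i with Even (D.m i), (D.m i : ℤ) * D.c i := by
  -- multiply out
  have h1 : 4 * D.LL = ∑ i, ∑ j, ((D.m i : ℤ) - if Odd (D.m i) then 1 else 0) *
      ((D.m j : ℤ) - if Odd (D.m j) then 1 else 0) * D.e i j := by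
    unfold LL
    rw [Finset.mul_sum]
    refine Finset.sum_congr rfl fun i _ => ?_
    rw [Finset.mul_sum]
    refine Finset.sum_congr rfl fun j _ => ?_
    have hi := D.div_two i
    have hj := D.div_two j
    have hi' : (D.m i : ℤ) - (if Odd (D.m i) then 1 else 0) = 2 * ((D.m i / 2 : ℕ) : ℤ) := by
      linarith
    have hj' : (D.m j : ℤ) - (if Odd (D.m j) then 1 else 0) = 2 * ((D.m j / 2 : ℕ) : ℤ) := by
      linarith
    rw [hi', hj']
    ring
  have hz : ∀ i, ∑ j, (D.m j : ℤ) * D.e i j = - D.c i := by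
    intro i
    have := D.div_zero i
    linarith
  have h2 : ∑ i, ∑ j, ((D.m i : ℤ) - if Odd (D.m i) then 1 else 0) *
      ((D.m j : ℤ) - if Odd (D.m j) then 1 else 0) * D.e i j =
      - (∑ i, (D.m i : ℤ) * D.c i) + 2 * (∑ i, (if Odd (D.m i) then 1 else 0) * (D.c i : ℤ)) +
        ∑ i, ∑ j, (if Odd (D.m i) then 1 else 0) * ((if Odd (D.m j) then 1 else 0) * D.e i j) := by
    have a1 : ∑ i, ∑ j, (D.m i : ℤ) * ((D.m j : ℤ) * D.e i j) = - ∑ i, (D.m i : ℤ) * D.c i := by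
      rw [← Finset.sum_neg_distrib]
      refine Finset.sum_congr rfl fun i _ => ?_
      rw [← Finset.mul_sum, hz i]
      ring
    have a2 : ∑ i, ∑ j, (if Odd (D.m i) then 1 else 0) * ((D.m j : ℤ) * D.e i j) =
        - ∑ i, (if Odd (D.m i) then 1 else 0) * (D.c i : ℤ) := by
      rw [← Finset.sum_neg_distrib]
      refine Finset.sum_congr rfl fun i _ => ?_
      rw [← Finset.mul_sum, hz i]
      ring
    have a3 : ∑ i, ∑ j, (D.m i : ℤ) * ((if Odd (D.m j) then 1 else 0) * D.e i j) =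
        - ∑ i, (if Odd (D.m i) then 1 else 0) * (D.c i : ℤ) := by
      rw [← a2, Finset.sum_comm]
      refine Finset.sum_congr rfl fun i _ => Finset.sum_congr rfl fun j _ => ?_
      rw [D.symm j i]
      ring
    have a4 : ∑ i, ∑ j, ((D.m i : ℤ) - if Odd (D.m i) then 1 else 0) *
        ((D.m j : ℤ) - if Odd (D.m j) then 1 else 0) * D.e i j =
        ∑ i, ∑ j, (D.m i : ℤ) * ((D.m j : ℤ) * D.e i j) -
        ∑ i, ∑ j, (if Odd (D.m i) then 1 else 0) * ((D.m j : ℤ) * D.e i j) -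
        ∑ i, ∑ j, (D.m i : ℤ) * ((if Odd (D.m j) then 1 else 0) * D.e i j) +
        ∑ i, ∑ j, (if Odd (D.m i) then 1 else 0) * ((if Odd (D.m j) then 1 else 0) * D.e i j) := by
      rw [← Finset.sum_sub_distrib, ← Finset.sum_sub_distrib, ← Finset.sum_add_distrib]
      refine Finset.sum_congr rfl fun i _ => ?_
      rw [← Finset.sum_sub_distrib, ← Finset.sum_sub_distrib, ← Finset.sum_add_distrib]
      refine Finset.sum_congr rfl fun j _ => ?_
      ring
    rw [a4, a1, a2, a3]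
    ring
  have h3 : ∑ i, ∑ j, (if Odd (D.m i) then 1 else 0) * ((if Odd (D.m j) then 1 else 0) *
      D.e i j) = ∑ i with Odd (D.m i), ∑ j with Odd (D.m j), D.e i j := by
    rw [Finset.sum_filter]
    refine Finset.sum_congr rfl fun i _ => ?_
    rw [← Finset.mul_sum]
    by_cases h : Odd (D.m i)
    · rw [if_pos h, if_pos h, one_mul, Finset.sum_filter]
      exact Finset.sum_congr rfl fun j _ => by split_ifs <;> simp
    · rw [if_neg h, if_neg h, zero_mul]
  have h4 : ∑ Q, D.qq (D.SQ Q) = - (∑ i with Odd (D.m i), ∑ j with Odd (D.m j), D.e i j) +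
      ∑ i with Odd (D.m i), ((D.m i : ℤ) - 2) * D.c i := by
    unfold qq
    rw [Finset.sum_add_distrib, Finset.sum_neg_distrib, D.RR_eq,
      D.sum_SQ (fun i => ((D.m i : ℤ) - 2) * D.c i)]
  have h5 : ∑ i with Odd (D.m i), ((D.m i : ℤ) - 2) * D.c i +
      ∑ i with Even (D.m i), (D.m i : ℤ) * D.c i =
      (∑ i, (D.m i : ℤ) * D.c i) - 2 * ∑ i, (if Odd (D.m i) then 1 else 0) * (D.c i : ℤ) := by
    rw [Finset.sum_filter, Finset.sum_filter, ← Finset.sum_add_distrib, Finset.mul_sum,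
      ← Finset.sum_sub_distrib]
    refine Finset.sum_congr rfl fun i _ => ?_
    rcases Nat.even_or_odd (D.m i) with h | h
    · rw [if_neg (Nat.not_odd_iff_even.2 h), if_pos h, if_neg (Nat.not_odd_iff_even.2 h)]
      ring
    · rw [if_pos h, if_neg (Nat.not_even_iff_odd.2 h), if_pos h]
      ring
  rw [h3] at h2
  linarith

/-- modulo four -/
theorem qq_dvd (S : Finset D.I) (hodd : ∀ i ∈ S, Odd (D.m i))
    (hsep : ∀ i ∈ S, ∀ j, j ∉ S → Odd (D.m j) → D.e i j = 0)
    (heven : ∀ j, Even (D.m j) → Even (∑ i ∈ S, D.e i j)) : (4 : ℤ) ∣ D.qq S := by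
  have hn : ∀ i ∈ S, ∃ n : ℤ, (D.m i : ℤ) = 1 + 2 * n := by
    intro i hi
    obtain ⟨k, hk⟩ := hodd i hi
    exact ⟨k, by rw [hk]; push_cast; ring⟩
  choose! n hn using hn
  -- `W² + ∑ m_i c_i`
  have ha : (4 : ℤ) ∣ ∑ i ∈ S, ∑ j ∈ S, (D.m i : ℤ) * D.m j * D.e i j +
      ∑ i ∈ S, (D.m i : ℤ) * D.c i := by
    have h1 : ∑ i ∈ S, ∑ j ∈ S, (D.m i : ℤ) * D.m j * D.e i j +
        ∑ i ∈ S, (D.m i : ℤ) * D.c i =
        - ∑ j with j ∉ S, (D.m j : ℤ) * ∑ i ∈ S, (D.m i : ℤ) * D.e i j := by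
      have h2 : ∑ j with j ∉ S, (D.m j : ℤ) * ∑ i ∈ S, (D.m i : ℤ) * D.e i j =
          ∑ i ∈ S, ∑ j with j ∉ S, (D.m i : ℤ) * (D.m j * D.e i j) := by
        rw [Finset.sum_comm]
        refine Finset.sum_congr rfl fun j _ => ?_
        rw [Finset.mul_sum]
        exact Finset.sum_congr rfl fun i _ => by ring
      rw [h2, ← Finset.sum_neg_distrib, ← Finset.sum_add_distrib]
      refine Finset.sum_congr rfl fun i _ => ?_
      have h3 := D.div_zero i
      rw [← Finset.sum_filter_add_sum_filter_not univ (· ∈ S), Finset.filter_mem_eq_inter,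
        Finset.univ_inter] at h3
      rw [← Finset.mul_sum]
      have h4 : ∑ j ∈ S, (D.m i : ℤ) * D.m j * D.e i j = D.m i * ∑ j ∈ S, (D.m j : ℤ) * D.e i j := by
        rw [Finset.mul_sum]
        exact Finset.sum_congr rfl fun j _ => by ring
      rw [h4]
      linear_combination (D.m i : ℤ) * h3
    rw [h1, dvd_neg]
    refine Finset.dvd_sum fun j hj => ?_
    rw [Finset.mem_filter] at hj
    rcases Nat.even_or_odd (D.m j) with h | h
    · have h5 : (2 : ℤ) ∣ ∑ i ∈ S, (D.m i : ℤ) * D.e i j := by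
        have h6 : ∑ i ∈ S, (D.m i : ℤ) * D.e i j = ∑ i ∈ S, D.e i j +
            ∑ i ∈ S, 2 * (n i * D.e i j) := by
          rw [← Finset.sum_add_distrib]
          refine Finset.sum_congr rfl fun i hi => ?_
          rw [hn i hi]
          ring
        rw [h6]
        exact dvd_add (heven j h).two_dvd (Finset.dvd_sum fun i _ => dvd_mul_right _ _)
      have h7 : (2 : ℤ) ∣ D.m j := by exact_mod_cast h.two_dvd
      exact mul_dvd_mul h7 h5
    · rw [Finset.sum_eq_zero fun i hi => by rw [hsep i hi j hj.2 h, mul_zero], mul_zero]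
      exact dvd_zero _
  -- `W² - Q²`
  have hb : ∑ i ∈ S, ∑ j ∈ S, (D.m i : ℤ) * D.m j * D.e i j - ∑ i ∈ S, ∑ j ∈ S, D.e i j =
      4 * (∑ i ∈ S, ∑ j ∈ S, n i * D.e i j + ∑ i ∈ S, ∑ j ∈ S, n i * n j * D.e i j) := by
    have h1 : ∑ i ∈ S, ∑ j ∈ S, n j * D.e i j = ∑ i ∈ S, ∑ j ∈ S, n i * D.e i j := by
      rw [Finset.sum_comm]
      refine Finset.sum_congr rfl fun i _ => Finset.sum_congr rfl fun j _ => ?_
      rw [D.symm j i]
    have h2 : ∑ i ∈ S, ∑ j ∈ S, (D.m i : ℤ) * D.m j * D.e i j - ∑ i ∈ S, ∑ j ∈ S, D.e i j =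
        2 * ∑ i ∈ S, ∑ j ∈ S, n i * D.e i j + 2 * ∑ i ∈ S, ∑ j ∈ S, n j * D.e i j +
          4 * ∑ i ∈ S, ∑ j ∈ S, n i * n j * D.e i j := by
      simp only [Finset.mul_sum, ← Finset.sum_add_distrib, ← Finset.sum_sub_distrib]
      refine Finset.sum_congr rfl fun i hi => Finset.sum_congr rfl fun j hj => ?_
      rw [hn i hi, hn j hj]
      ring
    rw [h2, h1]
    ring
  have hc : ∑ i ∈ S, (2 * (D.m i : ℤ) - 2) * D.c i = 4 * ∑ i ∈ S, n i * D.c i := by
    rw [Finset.mul_sum]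
    refine Finset.sum_congr rfl fun i hi => ?_
    rw [hn i hi]
    ring
  have hd : D.qq S = 4 * (∑ i ∈ S, ∑ j ∈ S, n i * D.e i j +
      ∑ i ∈ S, ∑ j ∈ S, n i * n j * D.e i j) -
      (∑ i ∈ S, ∑ j ∈ S, (D.m i : ℤ) * D.m j * D.e i j + ∑ i ∈ S, (D.m i : ℤ) * D.c i) +
      4 * ∑ i ∈ S, n i * D.c i := by
    rw [← hb, ← hc]
    unfold qq
    have : ∑ i ∈ S, (2 * (D.m i : ℤ) - 2) * D.c i = ∑ i ∈ S, (D.m i : ℤ) * D.c i +
        ∑ i ∈ S, ((D.m i : ℤ) - 2) * D.c i := by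
      rw [← Finset.sum_add_distrib]
      exact Finset.sum_congr rfl fun i _ => by ring
    rw [this]
    ring
  rw [hd]
  exact dvd_add (dvd_sub (dvd_mul_right _ _) ha) (dvd_mul_right _ _)

theorem qq_pos' (S : Finset D.I) {i : D.I} (hi : i ∈ S) (hc : 1 ≤ D.c i) (hm : 2 ≤ D.m i) :
    0 < D.qq S := by
  have h : (0 : ℚ) < ((D.qq S : ℤ) : ℚ) := by
    rw [D.qq_eq]
    have h1 := Finset.sum_nonneg fun i (_ : i ∈ univ) => Finset.sum_nonneg fun j (_ : j ∈ univ) =>
      D.term_nonneg (D.vS S) i j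
    have h2 : 0 < ∑ i ∈ S, (D.c i : ℚ) * ((D.m i : ℚ) - 1) ^ 2 / D.m i := by
      refine Finset.sum_pos' (fun i _ => by positivity) ⟨i, hi, ?_⟩
      have h3 : (0 : ℚ) < D.c i := by exact_mod_cast hc
      have h4 : (2 : ℚ) ≤ D.m i := by exact_mod_cast hm
      have h5 : (0 : ℚ) < (D.m i : ℚ) - 1 := by linarith
      have h6 : (0 : ℚ) < D.m i := by linarith
      positivity
    linarith
  exact_mod_cast h

/-- The combinatorial data of the double cover over the exceptional curves. -/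
structure Splitting (F : D.I → ℕ) (Ftot : ℕ) (Split : Finset D.I) : Prop where
  F_le : ∀ j, F j ≤ D.c j
  Ftot_le : Ftot ≤ ∑ j with Even (D.m j), F j
  split_even : ∀ j ∈ Split, Even (D.m j)
  split_F : ∀ j ∈ Split, 2 * F j ≤ D.c j
  split_Q : ∀ j ∈ Split, D.c j = 0 → ∀ Q, Even (∑ i ∈ D.SQ Q, D.e i j)

variable {D}

theorem Splitting.card_le {F : D.I → ℕ} {Ftot : ℕ} {Split : Finset D.I}
    (h : D.Splitting F Ftot Split) : Split.card ≤ D.even := by
  unfold DivisorData.even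
  refine Finset.card_le_card fun j hj => ?_
  rw [Finset.mem_filter]
  exact ⟨Finset.mem_univ _, h.split_even j hj⟩

theorem two_mul_cR (hex : ∃ i, Even (D.m i)) (Q : D.oddGraph.ConnectedComponent) :
    2 ≤ D.qq (D.SQ Q) := by
  obtain ⟨i₀, hi₀⟩ := hex
  have hne : D.SQ Q ≠ univ := by
    intro h
    have := D.mem_SQ.1 (h ▸ Finset.mem_univ i₀)
    exact (Nat.not_odd_iff_even.2 hi₀) this.1
  obtain ⟨i, hi, j, hj, he⟩ := D.conn _ (D.SQ_nonempty Q) hne
  have hpos := D.qq_pos _ hi hj he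
  have hev := D.qq_even (D.SQ Q) (fun i hi => (D.mem_SQ.1 hi).1) (D.SQ_sep Q)
  obtain ⟨k, hk⟩ := hev
  omega

theorem mul_cR {a : ℤ} (h : ∀ Q, a ≤ D.qq (D.SQ Q)) : a * D.cR ≤ ∑ Q, D.qq (D.SQ Q) := by
  have := Finset.card_nsmul_le_sum univ (fun Q => D.qq (D.SQ Q)) a (fun Q _ => h Q)
  rw [D.cR_eq]
  rw [Finset.card_univ, nsmul_eq_mul] at this
  linarith

theorem cR_le_one (hodd : ∀ i, Odd (D.m i)) : D.cR ≤ 1 := by
  rw [D.cR_eq, Fintype.card_le_one_iff]
  intro Q Q'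
  by_contra hQ
  have hne : D.SQ Q ≠ univ := by
    intro h
    obtain ⟨i, hi⟩ := D.SQ_nonempty Q'
    obtain ⟨h1, h2⟩ := D.mem_SQ.1 hi
    obtain ⟨h3, h4⟩ := D.mem_SQ.1 (h ▸ Finset.mem_univ i : i ∈ D.SQ Q)
    exact hQ (h4.symm.trans h2)
  obtain ⟨i, hi, j, hj, he⟩ := D.conn _ (D.SQ_nonempty Q) hne
  rw [D.SQ_sep Q i hi j hj (hodd j)] at he
  exact lt_irrefl _ he

/-- **the inequality on the graph**, if some multiplicity is even -/
theorem Splitting.even_case {F : D.I → ℕ} {Ftot : ℕ} {Split : Finset D.I}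
    (h : D.Splitting F Ftot Split) (hex : ∃ i, Even (D.m i)) :
    (D.cR : ℤ) + Ftot + 1 ≤ - 2 * D.LL + (D.even - Split.card) := by
  have hLL := D.LL_eq
  have hF' : (Ftot : ℤ) ≤ ∑ j with Even (D.m j), (F j : ℤ) := by exact_mod_cast h.Ftot_le
  have hFc : ∑ j with Even (D.m j), (F j : ℤ) ≤ ∑ j with Even (D.m j), (D.c j : ℤ) :=
    Finset.sum_le_sum fun j _ => by exact_mod_cast h.F_le j
  have h1 : 2 * ∑ j with Even (D.m j), (D.c j : ℤ) ≤
      ∑ i with Even (D.m i), (D.m i : ℤ) * D.c i := by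
    rw [Finset.mul_sum]
    refine Finset.sum_le_sum fun i hi => ?_
    rw [Finset.mem_filter] at hi
    have h2 : 2 ≤ D.m i := by
      have := D.m_pos i
      obtain ⟨k, hk⟩ := hi.2
      omega
    have h3 : (2 : ℤ) ≤ D.m i := by exact_mod_cast h2
    exact mul_le_mul_of_nonneg_right h3 (by positivity)
  have h3 := mul_cR (two_mul_cR hex)
  have hcard : (Split.card : ℤ) ≤ D.even := by exact_mod_cast h.card_le
  rcases lt_or_eq_of_le h.card_le with hlt | heq
  · have : (Split.card : ℤ) + 1 ≤ D.even := by exact_mod_cast hlt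
    linarith
  · -- all the curves of even multiplicity split
    have hall : Split = univ.filter fun i => Even (D.m i) := by
      refine Finset.eq_of_subset_of_card_le (fun j hj => ?_) (by rw [heq]; exact le_rfl)
      rw [Finset.mem_filter]
      exact ⟨Finset.mem_univ _, h.split_even j hj⟩
    have hF2 : 2 * ∑ j with Even (D.m j), (F j : ℤ) ≤ ∑ j with Even (D.m j), (D.c j : ℤ) := by
      rw [← hall, Finset.mul_sum]
      exact Finset.sum_le_sum fun j hj => by exact_mod_cast h.split_F j hj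
    have hc0 : 0 ≤ ∑ j with Even (D.m j), (D.c j : ℤ) := Finset.sum_nonneg fun j _ => by positivity
    rcases lt_or_eq_of_le hc0 with hpos | hzero
    · have heqZ : (Split.card : ℤ) = D.even := by exact_mod_cast heq
      have hFt : (0 : ℤ) ≤ Ftot := by positivity
      have : (Ftot : ℤ) + 1 ≤ ∑ j with Even (D.m j), (D.c j : ℤ) := by omega
      linarith
    · have hcj : ∀ j, Even (D.m j) → D.c j = 0 := by
        intro j hj
        have := (Finset.sum_eq_zero_iff_of_nonneg (fun j _ => by positivity)).1 hzero.symm j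
          (by rw [Finset.mem_filter]; exact ⟨Finset.mem_univ _, hj⟩)
        exact_mod_cast this
      have hfour : ∀ Q, 4 ≤ D.qq (D.SQ Q) := by
        intro Q
        have hd := D.qq_dvd (D.SQ Q) (fun i hi => (D.mem_SQ.1 hi).1) (D.SQ_sep Q) (fun j hj =>
          h.split_Q j (by rw [hall, Finset.mem_filter]; exact ⟨Finset.mem_univ _, hj⟩)
            (hcj j hj) Q)
        have := two_mul_cR hex Q
        omega
      have h4 := mul_cR hfour
      have hcR : (1 : ℤ) ≤ D.cR := by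
        obtain ⟨i, hi⟩ := D.c_pos
        have hio : Odd (D.m i) := by
          rcases Nat.even_or_odd (D.m i) with h' | h'
          · rw [hcj i h'] at hi
            omega
          · exact h'
        have : 0 < D.cR := by
          rw [D.cR_eq]
          exact Fintype.card_pos_iff.2 ⟨D.oddGraph.connectedComponentMk ⟨i, hio⟩⟩
        exact_mod_cast this
      have hm0 : (0 : ℤ) ≤ ∑ i with Even (D.m i), (D.m i : ℤ) * D.c i := by linarith
      linarith

/-- **the inequality on the graph**, if all the multiplicities are odd -/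
theorem Splitting.odd_case {F : D.I → ℕ} {Ftot : ℕ} {Split : Finset D.I}
    (h : D.Splitting F Ftot Split) (hex : ¬ ∃ i, Even (D.m i)) :
    (D.cR : ℤ) + Ftot ≤ 1 - 2 * D.LL + (D.even - Split.card) ∧
    ((∀ i, 2 ≤ D.m i) → (D.cR : ℤ) + Ftot + 1 ≤ - 2 * D.LL + (D.even - Split.card)) := by
  have hLL := D.LL_eq
  push Not at hex
  have hodd : ∀ i, Odd (D.m i) := fun i => Nat.not_even_iff_odd.1 (hex i)
  have hF' : (Ftot : ℤ) ≤ ∑ j with Even (D.m j), (F j : ℤ) := by exact_mod_cast h.Ftot_le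
  have hF0 : (Ftot : ℤ) ≤ 0 := by
    refine le_trans hF' ?_
    rw [Finset.filter_false_of_mem (fun i _ => hex i), Finset.sum_empty]
  have hcard : (Split.card : ℤ) ≤ D.even := by exact_mod_cast h.card_le
  have hc' : (D.cR : ℤ) ≤ 1 := by exact_mod_cast cR_le_one hodd
  have h3 : 0 ≤ ∑ Q, D.qq (D.SQ Q) := Finset.sum_nonneg fun Q _ => D.qq_nonneg _
  have h4 : 0 ≤ ∑ i with Even (D.m i), (D.m i : ℤ) * D.c i :=
    Finset.sum_nonneg fun i _ => by positivity
  refine ⟨by linarith, fun h2 => ?_⟩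
  obtain ⟨i, hi⟩ := D.c_pos
  have h5 : 0 < ∑ Q, D.qq (D.SQ Q) :=
    Finset.sum_pos' (fun Q _ => D.qq_nonneg _) ⟨D.oddGraph.connectedComponentMk ⟨i, hodd i⟩,
      Finset.mem_univ _, D.qq_pos' _ (D.mem_SQ.2 ⟨hodd i, rfl⟩) hi (h2 i)⟩
  have h6 : D.LL ≤ -1 := by omega
  linarith

end DivisorData

end Pool.Agent.Helper80.DC
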