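import Pool.Agent.Helper80.DC.Graph

/-!
# The invariant `A = 8 p_g + K² - b₁` of double covers
-/

namespace Pool.Agent.Helper80.DC

open Finset

variable {T : SurfaceGerms}

/-- the number of curves of odd and of even multiplicity -/
theorem DivisorData.odd_add_even (D : DivisorData) : D.odd + D.even = Fintype.card D.I := by
  unfold DivisorData.odd DivisorData.even
  rw [← Finset.card_univ, ← Finset.card_filter_add_card_filter_not (s := univ)
    (fun i => Odd (D.m i))]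
  congr 2
  ext i
  simp

/-- double points: `A ≥ 0` -/
theorem A_double_point (h : Facts T) {U : T.Germ} (b : T.Branch U) (hU : T.Smooth U) :
    0 ≤ T.A (T.cover U b) := by
  obtain ⟨l, hl, h1, h2⟩ := h.horikawa U b hU
  have h3 := h.b1_le (T.cover U b)
  have h4 : 2 * (l.map fun k : ℕ => ((k : ℤ) - 1) ^ 2).sum ≤
      3 * (l.map fun k : ℕ => (k : ℤ) * ((k : ℤ) - 1)).sum := by
    clear h1 h2
    induction l with
    | nil => simp
    | cons k l ih =>
      rw [List.map_cons, List.sum_cons, List.map_cons, List.sum_cons]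
      have := ih fun k hk => hl k (List.mem_cons_of_mem _ hk)
      have hk : (1 : ℤ) ≤ k := by exact_mod_cast hl k List.mem_cons_self
      nlinarith [mul_nonneg (sub_nonneg.2 hk) (sub_nonneg.2 hk)]
  have h5 : (2 * (T.pg (T.cover U b) : ℚ)) =
      (((l.map fun k : ℕ => (k : ℤ) * ((k : ℤ) - 1)).sum : ℤ) : ℚ) := by exact_mod_cast h1
  have h6 : (2 : ℚ) * (((l.map fun k : ℕ => ((k : ℤ) - 1) ^ 2).sum : ℤ) : ℚ) ≤
      3 * (((l.map fun k : ℕ => (k : ℤ) * ((k : ℤ) - 1)).sum : ℤ) : ℚ) := by exact_mod_cast h4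
  have h7 : (T.b1 (T.cover U b) : ℚ) ≤ 2 * T.pg (T.cover U b) := by exact_mod_cast h3
  unfold SurfaceGerms.A
  push_cast at h2 h5 h6
  linarith

theorem CoverData.splitting {Y : T.Germ} {g : T.Branch Y} (C : CoverData T Y g) :
    C.D.Splitting C.F C.Ftot C.Split :=
  ⟨C.F_le, C.Ftot_le, C.split_even, C.split_F, C.split_Q⟩

/-- double covers of a singular germ -/
theorem A_coverData {Y : T.Germ} {g : T.Branch Y} (C : CoverData T Y g) {a : ℤ}
    (ha : (C.D.cR : ℤ) + C.Ftot + a ≤ 1 - 2 * C.D.LL + (C.D.even - C.Split.card)) :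
    2 * T.A Y + ∑ p, T.A (C.x p) + a ≤ T.A (T.cover Y g) := by
  have hb := C.b1_eq
  rw [C.e1_eq, C.e0_eq, C.eE_eq, C.eB_eq] at hb
  have hs : (C.D.odd : ℤ) + C.D.even = T.s Y := by
    have := C.D.odd_add_even
    rw [C.card_I] at this
    exact_mod_cast this
  have hb1 : (T.b1 (T.cover Y g) : ℤ) ≤ 2 * T.b1 Y + ∑ p, (T.b1 (C.x p) : ℤ) +
      (C.D.cR + C.Ftot - 1 - (C.D.even - C.Split.card)) := by
    have e : ∑ p, ((1 - (T.b1 (C.x p) : ℤ) + T.s (C.x p)) - 1) =
        - ∑ p, (T.b1 (C.x p) : ℤ) + ∑ p, (T.s (C.x p) : ℤ) := by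
      rw [← Finset.sum_neg_distrib, ← Finset.sum_add_distrib]
      exact Finset.sum_congr rfl fun p _ => by ring
    rw [e] at hb
    have : (0 : ℤ) ≤ C.b1R := by positivity
    linarith
  have hb1' : (T.b1 (T.cover Y g) : ℚ) ≤ 2 * T.b1 Y + ∑ p, (T.b1 (C.x p) : ℚ) +
      (C.D.cR + C.Ftot - 1 - (C.D.even - C.Split.card)) := by exact_mod_cast hb1
  have h3' : (C.D.cR : ℚ) + C.Ftot + a ≤ 1 - 2 * C.D.LL + (C.D.even - C.Split.card) := by
    exact_mod_cast ha
  have hp := C.pg_eq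
  rw [C.h1_eq] at hp
  have hK := C.K2_ge
  rw [C.K0_eq] at hK
  unfold SurfaceGerms.A
  rw [Finset.sum_sub_distrib, Finset.sum_add_distrib, ← Finset.mul_sum]
  linarith

theorem A_smooth (h : Facts T) {Y : T.Germ} (hY : T.Smooth Y) : T.A Y = 0 := by
  obtain ⟨_, h2, _, _, h3, h4⟩ := h.smooth Y hY
  unfold SurfaceGerms.A
  rw [h2, h3, h4]
  norm_num

theorem A_points (h : Facts T) {Y : T.Germ} {g : T.Branch Y} (C : CoverData T Y g) :
    0 ≤ ∑ p, T.A (C.x p) := by
  refine Finset.sum_nonneg fun p _ => ?_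
  obtain ⟨U, b, hU, hx⟩ := C.x_cover p
  rw [hx]
  exact A_double_point h b hU

/-- **the main inequality**: for every double cover `A(X) ≥ 2 A(Y)` -/
theorem A_cover (h : Facts T) (Y : T.Germ) (g : T.Branch Y) : 2 * T.A Y ≤ T.A (T.cover Y g) := by
  by_cases hY : T.Smooth Y
  · rw [A_smooth h hY, mul_zero]
    exact A_double_point h g hY
  · obtain ⟨C⟩ := h.coverData Y g hY
    have h2 := A_points h C
    have h3 : (C.D.cR : ℤ) + C.Ftot + 0 ≤ 1 - 2 * C.D.LL + (C.D.even - C.Split.card) := by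
      by_cases hex : ∃ i, Even (C.D.m i)
      · linarith [C.splitting.even_case hex]
      · linarith [(C.splitting.odd_case hex).1]
    have h1 := A_coverData C h3
    push_cast at h1
    linarith

/-- **the main inequality**, for functions in the square of the maximal ideal -/
theorem A_cover_sq (h : Facts T) (Y : T.Germ) (g : T.Branch Y) (hY : ¬ T.Smooth Y)
    (hg : T.InSq g) : 2 * T.A Y + 2 ≤ T.A (T.cover Y g) := by
  obtain ⟨C⟩ := h.coverData Y g hY
  have h2 := A_points h C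
  have h3 : (C.D.cR : ℤ) + C.Ftot + 2 ≤ 1 - 2 * C.D.LL + (C.D.even - C.Split.card) := by
    by_cases hex : ∃ i, Even (C.D.m i)
    · linarith [C.splitting.even_case hex]
    · linarith [(C.splitting.odd_case hex).2 (C.two_le hg)]
  have h1 := A_coverData C h3
  push_cast at h1
  linarith

theorem A_step (h : Facts T) {Y : T.Germ} (g : T.Branch Y) (hY : (2 : ℚ) ^ T.cod Y - 2 ≤ T.A Y) :
    (2 : ℚ) ^ T.cod (T.cover Y g) - 2 ≤ T.A (T.cover Y g) := by
  obtain ⟨hc1, hc2⟩ := h.cod_cover Y g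
  by_cases hs : T.Smooth Y
  · have h1 := A_double_point h g hs
    have h2 := (h.cod_zero Y).2 hs
    have h3 : T.cod (T.cover Y g) ≤ 1 := by
      by_cases hg : T.InSq g
      · rw [hc1 hg, h2]
      · rw [hc2 hg, h2]
        exact Nat.zero_le _
    have h4 : (2 : ℚ) ^ T.cod (T.cover Y g) ≤ 2 ^ 1 := pow_le_pow_right₀ (by norm_num) h3
    linarith
  · by_cases hg : T.InSq g
    · have h1 := A_cover_sq h Y g hs hg
      rw [hc1 hg, pow_succ]
      linarith
    · have h1 := A_cover h Y g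
      have h2 : 1 ≤ T.cod Y := by
        rcases Nat.eq_zero_or_pos (T.cod Y) with h' | h'
        · exact absurd ((h.cod_zero Y).1 h') hs
        · exact h'
      have h3 : (2 : ℚ) ^ 1 ≤ 2 ^ T.cod Y := pow_le_pow_right₀ (by norm_num) h2
      rw [hc2 hg]
      linarith

theorem A_iterated (h : Facts T) {Y X : T.Germ} (hXY : T.Iterated Y X)
    (hY : (2 : ℚ) ^ T.cod Y - 2 ≤ T.A Y) : (2 : ℚ) ^ T.cod X - 2 ≤ T.A X := by
  induction hXY with
  | refl => exact hY
  | tail _ hg ih =>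
    obtain ⟨g, rfl⟩ := hg
    exact A_step h g ih

theorem CI_iterated (h : Facts T) {Y X : T.Germ} (hXY : T.Iterated Y X) (hY : T.CI Y) :
    T.CI X := by
  induction hXY with
  | refl => exact hY
  | tail _ hg ih =>
    obtain ⟨g, rfl⟩ := hg
    exact h.CI_cover _ g ih

/-- for an isolated complete intersection `μ = 4 p_g + s + A` -/
theorem mu_eq (h : Facts T) {X : T.Germ} (hX : T.CI X) :
    (T.mu X : ℚ) = 4 * T.pg X + T.s X + T.A X := by
  by_cases hs : T.Smooth X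
  · obtain ⟨_, h2, h3, h4, h5, h6⟩ := h.smooth X hs
    unfold SurfaceGerms.A
    rw [h2, h3, h4, h5, h6]
    norm_num
  · rw [h.laufer_steenbrink X hX hs]
    unfold SurfaceGerms.A
    ring

theorem A_ge_iff (h : Facts T) {X : T.Germ} (hX : T.CI X) :
    (2 : ℚ) ^ T.cod X - 2 ≤ T.A X ↔ 4 * T.pg X + T.s X + 2 ^ T.cod X ≤ T.mu X + 2 := by
  have h1 := mu_eq h hX
  constructor
  · intro h2
    have : ((4 * T.pg X + T.s X + 2 ^ T.cod X : ℕ) : ℚ) ≤ ((T.mu X + 2 : ℕ) : ℚ) := by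
      push_cast
      linarith
    exact_mod_cast this
  · intro h2
    have : ((4 * T.pg X + T.s X + 2 ^ T.cod X : ℕ) : ℚ) ≤ ((T.mu X + 2 : ℕ) : ℚ) := by
      exact_mod_cast h2
    push_cast at this
    linarith

/-- **the main theorem** -/
theorem main (h : Facts T) :
    (∀ (Y : T.Germ) (g : T.Branch Y), 2 * T.A Y ≤ T.A (T.cover Y g) ∧
      (¬ T.Smooth Y → T.InSq g → 2 * T.A Y + 2 ≤ T.A (T.cover Y g))) ∧
    (∀ Y X : T.Germ, T.CI Y → 4 * T.pg Y + T.s Y + 2 ^ T.cod Y ≤ T.mu Y + 2 →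
      T.Iterated Y X → 4 * T.pg X + T.s X + 2 ^ T.cod X ≤ T.mu X + 2) ∧
    (∀ U X : T.Germ, T.Smooth U → T.Iterated U X → ¬ T.Smooth X →
      4 * T.pg X + T.s X + 2 ^ T.cod X ≤ T.mu X + 2 ∧ 4 * T.pg X < T.mu X) := by
  have key : ∀ Y X : T.Germ, T.CI Y → 4 * T.pg Y + T.s Y + 2 ^ T.cod Y ≤ T.mu Y + 2 →
      T.Iterated Y X → 4 * T.pg X + T.s X + 2 ^ T.cod X ≤ T.mu X + 2 := by
    intro Y X hY hA hYX
    exact (A_ge_iff h (CI_iterated h hYX hY)).1 (A_iterated h hYX ((A_ge_iff h hY).2 hA))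
  refine ⟨fun Y g => ⟨A_cover h Y g, A_cover_sq h Y g⟩, key, fun U X hU hUX hX => ?_⟩
  obtain ⟨hCI, h2, h3, h4, _, _⟩ := h.smooth U hU
  have h1 : 4 * T.pg X + T.s X + 2 ^ T.cod X ≤ T.mu X + 2 := by
    refine key U X hCI ?_ hUX
    rw [h2, h3, h4, (h.cod_zero U).2 hU]
    norm_num
  refine ⟨h1, ?_⟩
  have h5 := h.s_pos X hX
  have h6 : 2 ^ 1 ≤ 2 ^ T.cod X := by
    refine Nat.pow_le_pow_right (by norm_num) ?_
    rcases Nat.eq_zero_or_pos (T.cod X) with h' | h'
    · exact absurd ((h.cod_zero X).1 h') hX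
    · exact h'
  omega

end Pool.Agent.Helper80.DC
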